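import Pool.Agent.Helper6.TorsionR

set_option autoImplicit false

namespace Pool.Agent.Results.MP_4e5790_al.ProductFiniteRank

open Pool.Agent.Helper6.LVar

universe u

/-- **Products of varieties of `ℓ`-groups of finite rank have finite rank.**
Let `E₁` be any set of identities in the variables `x_0, ..., x_{n₁-1}` and `E₂` any set of
identities in the variables `x_0, ..., x_{n₂-1}`. There is a set `E` of identities in the
variables `x_0, ..., x_{n₁+n₂-1}` that defines the product of the variety defined by `E₁` and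
the variety defined by `E₂`. -/
theorem result (n₁ n₂ : ℕ) (E₁ E₂ : Set (LTerm × LTerm))
    (h₁ : ∀ e ∈ E₁, e.1.VarsLT n₁ ∧ e.2.VarsLT n₁)
    (h₂ : ∀ e ∈ E₂, e.1.VarsLT n₂ ∧ e.2.VarsLT n₂) :
    ∃ E : Set (LTerm × LTerm), (∀ e ∈ E, e.1.VarsLT (n₁ + n₂) ∧ e.2.VarsLT (n₁ + n₂)) ∧
      ∀ (G : Type u) [Group G] [Lattice G] [MulLeftMono G] [MulRightMono G],
        Satisfies E G ↔ InProduct E₁ E₂ G := by
  refine ⟨prodIds n₁ E₁ E₂, prodIds_varsLT h₁ h₂, ?_⟩
  intro G _ _ _ _
  refine ⟨fun h => ?_, satisfies_of_inProduct n₁ E₁ E₂⟩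
  refine inProduct_of_satisfies n₁ E₁ E₂ h₁ ?_ h
  intro C hC h hh p q hpq
  exact Pool.Agent.Helper6.TorsionR.theoremR C hC h hh p q hpq

end Pool.Agent.Results.MP_4e5790_al.ProductFiniteRank
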